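import Pool.Agent.H46.P.Class

/-!
# The limit: from the members `Y_k` with a parabolic group to the member `X`

`Memb C X L` is the conclusion of the module `memb`: members `Y_k` of the local family of `X` which
tend to `X`, on which `L` is nef and which have a parabolic group.
-/

namespace Pool.Agent.H57.HP

open Pool.Agent.H83.HN Pool.Agent.H83.HP Pool.Agent.H46.P Pool.Agent.H36.HP

variable {n : ℕ} {Lam : Type} [AddCommGroup Lam]

/-- Members with a parabolic group which tend to `X` (internal to the proof). -/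
def Memb (C : PClass n Lam) (X : C.Mem) (L : Lam) : Prop :=
  ∃ Y : ℕ → C.Mem, (∀ k,
      (∀ x, ∀ a : ℕ, 0 < a → a • x ∈ (C.M (Y k)).NS → x ∈ (C.M (Y k)).NS) ∧
      L ∈ (C.M (Y k)).Nef ∧
      (∀ D ∈ (C.M (Y k)).Prime, C.q D L = 0 → ∃ a b : ℕ, 0 < a ∧ 0 < b ∧ a • D = b • L) ∧
      ∃ A ∈ (C.M (Y k)).VeryAmple, Nonempty (Para (C.M (Y k)) L A 1)) ∧
      ∀ m : ℕ, (∀ k1, ∃ k, k1 ≤ k ∧ (C.M (Y k)).Sec (m • L) ≠ ⊥) →
        (C.M X).Sec (m • L) ≠ ⊥

/-- PIGEONHOLE: a function with values in `1, .., N` takes some value infinitely often. -/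
theorem exists_frequent (f : ℕ → ℕ) (N : ℕ) (h : ∀ k, 0 < f k ∧ f k ≤ N) :
    ∃ m, 0 < m ∧ m ≤ N ∧ ∀ k1, ∃ k, k1 ≤ k ∧ f k = m := by
  by_contra hcon
  push Not at hcon
  have h1 : ∀ m : ℕ, ∃ k1, ∀ k, k1 ≤ k → f k ≠ m := by
    intro m
    by_cases hm : 0 < m ∧ m ≤ N
    · exact hcon m hm.1 hm.2
    · refine ⟨0, fun k _ hk => hm ?_⟩
      rw [← hk]
      exact h k
  choose g hg using h1
  have h2 := hg (f (∑ m ∈ Finset.range (N + 1), g m)) (∑ m ∈ Finset.range (N + 1), g m)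
    (Finset.single_le_sum (f := g) (fun _ _ => Nat.zero_le _)
      (Finset.mem_range.2 (Nat.lt_succ_of_le (h _).2)))
  exact h2 rfl

/-- NONVANISHING on `X` from the members `Y_k`. -/
theorem nonvanishing_of (C : PClass n Lam) (X : C.Mem) {L : Lam} (hLL : C.q L L = 0)
    (hM : L ≠ 0 → Memb C X L) : ∃ m : ℕ, 0 < m ∧ m ≤ bnd n ∧ (C.M X).Sec (m • L) ≠ ⊥ := by
  by_cases hL0 : L = 0
  · refine ⟨1, one_pos, ?_, ?_⟩
    · have h1 : 0 < (2 * n).choose n := Nat.choose_pos (by omega)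
      exact Nat.mul_pos h1 (Nat.succ_pos _)
    · intro h
      have h1 := (C.M X).sec_zero
      rw [hL0, smul_zero] at h
      rw [h, finrank_bot] at h1
      exact zero_ne_one h1
  · obtain ⟨Y, hY, hlim⟩ := hM hL0
    have := C.free
    have := C.finite
    have h1 : ∀ k, ∃ m : ℕ, 0 < m ∧ m ≤ bnd n ∧ (C.M (Y k)).Sec (m • L) ≠ ⊥ := by
      intro k
      obtain ⟨hNS, hL, hprime, A, hA, ⟨π⟩⟩ := hY k
      exact on_Y C.q_symm C.q_add (C.M (Y k)) (C.forms (Y k))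
        (fun x hx hxx hx0 => ⟨C.coh (Y k) x hx hxx hx0⟩) hL hLL hL0 hNS hprime
        ((C.M (Y k)).va_ample hA) one_pos π
    choose f hf1 hf2 hf3 using h1
    obtain ⟨m, hm1, hm2, hm3⟩ := exists_frequent f (bnd n) fun k => ⟨hf1 k, hf2 k⟩
    refine ⟨m, hm1, hm2, hlim m fun k1 => ?_⟩
    obtain ⟨k, hk, hkm⟩ := hm3 k1
    exact ⟨k, hk, by rw [← hkm]; exact hf3 k⟩

end Pool.Agent.H57.HP
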